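import Pool.Agent.Perc.Abs

/-!
# The key inequality

A derivative inequality for functions of independent bits whose influences are supported on
events `A e ∧ B e` (`A e` increasing, `B e` decreasing, both independent of the bit `e`).
-/

namespace Pool.Agent.Perc

open Finset

variable {ι : Type*} [DecidableEq ι] {p : ℝ} {F F' S : Finset ι} {e e' : ι}

/-- The centred bit. -/
noncomputable def chi (p : ℝ) (e : ι) (S : Finset ι) : ℝ := ind (fun S => e ∈ S) S - p

omit [DecidableEq ι] in
theorem chi_of_mem (h : e ∈ S) (p : ℝ) : chi p e S = 1 - p := by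
  unfold chi; rw [ind_of (A := fun S => e ∈ S) h]

omit [DecidableEq ι] in
theorem chi_of_notMem (h : e ∉ S) (p : ℝ) : chi p e S = - p := by
  unfold chi; rw [ind_of_not (A := fun S => e ∈ S) h]; ring

theorem Ex_mul_chi (he : e ∈ F) (p : ℝ) (f : Finset ι → ℝ) :
    Ex p F (fun S => f S * chi p e S) = p * (1 - p) * Ex p F (DD e f) := by
  rw [Ex_erase he, Ex_DD he]
  have h1 : Ex p (F.erase e) (fun S => f (insert e S) * chi p e (insert e S))
      = Ex p (F.erase e) (fun S => f (insert e S)) * (1 - p) := by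
    rw [← Ex_mul_const]
    refine Ex_congr fun S _ => ?_
    rw [chi_of_mem (Finset.mem_insert_self e S)]
  have h2 : Ex p (F.erase e) (fun S => f S * chi p e S)
      = Ex p (F.erase e) f * (-p) := by
    rw [← Ex_mul_const]
    refine Ex_congr fun S hS => ?_
    rw [chi_of_notMem (fun h => Finset.notMem_erase e F (hS h))]
  rw [h1, h2]
  ring

theorem Ex_chi_cross (he : e ∈ F) (he' : e' ∈ F) (hne : e ≠ e') (p : ℝ) (h h' : Finset ι → ℝ)
    (hh : ∀ S, S ⊆ F → e ∉ S → h (insert e S) = h S)
    (hh' : ∀ S, S ⊆ F → e' ∉ S → h' (insert e' S) = h' S) :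
    Ex p F (fun S => (chi p e S * h S) * (chi p e' S * h' S))
      = (p * (1 - p)) ^ 2 * Ex p ((F.erase e').erase e)
        (fun S => (h (insert e' S) - h S) * (h' (insert e S) - h' S)) := by
  have hm : e ∈ F.erase e' := Finset.mem_erase.2 ⟨hne, he⟩
  rw [Ex_erase he', Ex_erase hm, Ex_erase hm]
  have sub : ∀ S, S ⊆ (F.erase e').erase e → e ∉ S ∧ e' ∉ S ∧ S ⊆ F := by
    intro S hS
    refine ⟨fun h => Finset.notMem_erase e _ (hS h), fun h => ?_, ?_⟩
    · exact Finset.notMem_erase e' F (Finset.erase_subset _ _ (hS h))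
    · exact hS.trans ((Finset.erase_subset _ _).trans (Finset.erase_subset _ _))
  have h1 : Ex p ((F.erase e').erase e) (fun S => (chi p e (insert e' (insert e S))
      * h (insert e' (insert e S))) * (chi p e' (insert e' (insert e S)) * h' (insert e' (insert e S))))
      = (1 - p) ^ 2 * Ex p ((F.erase e').erase e) (fun S => h (insert e' S) * h' (insert e S)) := by
    rw [← Ex_const_mul]
    refine Ex_congr fun S hS => ?_
    obtain ⟨s1, s2, s3⟩ := sub S hS
    rw [chi_of_mem (by simp), chi_of_mem (by simp), hh' (insert e S)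
      (Finset.insert_subset he s3) (by simp [s2, hne.symm]), Finset.insert_comm,
      hh (insert e' S) (Finset.insert_subset he' s3) (by simp [s1, hne])]
    ring
  have h2 : Ex p ((F.erase e').erase e) (fun S => (chi p e (insert e' S)
      * h (insert e' S)) * (chi p e' (insert e' S) * h' (insert e' S)))
      = (-(p * (1 - p))) * Ex p ((F.erase e').erase e) (fun S => h (insert e' S) * h' S) := by
    rw [← Ex_const_mul]
    refine Ex_congr fun S hS => ?_
    obtain ⟨s1, s2, s3⟩ := sub S hS
    rw [chi_of_notMem (by simp [s1, hne]), chi_of_mem (by simp), hh' S s3 s2]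
    ring
  have h3 : Ex p ((F.erase e').erase e) (fun S => (chi p e (insert e S)
      * h (insert e S)) * (chi p e' (insert e S) * h' (insert e S)))
      = (-(p * (1 - p))) * Ex p ((F.erase e').erase e) (fun S => h S * h' (insert e S)) := by
    rw [← Ex_const_mul]
    refine Ex_congr fun S hS => ?_
    obtain ⟨s1, s2, s3⟩ := sub S hS
    rw [chi_of_mem (by simp), chi_of_notMem (by simp [s2, hne.symm]), hh S s3 s1]
    ring
  have h4 : Ex p ((F.erase e').erase e) (fun S => (chi p e S * h S) * (chi p e' S * h' S))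
      = p ^ 2 * Ex p ((F.erase e').erase e) (fun S => h S * h' S) := by
    rw [← Ex_const_mul]
    refine Ex_congr fun S hS => ?_
    obtain ⟨s1, s2, s3⟩ := sub S hS
    rw [chi_of_notMem s1, chi_of_notMem s2]
    ring
  have h5 : Ex p ((F.erase e').erase e)
        (fun S => (h (insert e' S) - h S) * (h' (insert e S) - h' S))
      = Ex p ((F.erase e').erase e) (fun S => h (insert e' S) * h' (insert e S))
        - Ex p ((F.erase e').erase e) (fun S => h (insert e' S) * h' S)
        - Ex p ((F.erase e').erase e) (fun S => h S * h' (insert e S))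
        + Ex p ((F.erase e').erase e) (fun S => h S * h' S) := by
    rw [← Ex_sub, ← Ex_sub, ← Ex_add]
    refine Ex_congr fun S _ => ?_
    ring
  rw [h1, h2, h3, h4, h5]
  ring

theorem Ex_chi_diag (he : e ∈ F) (p : ℝ) (h : Finset ι → ℝ)
    (hh : ∀ S, S ⊆ F → e ∉ S → h (insert e S) = h S) :
    Ex p F (fun S => (chi p e S * h S) * (chi p e S * h S))
      = (p * (1 - p)) * Ex p F (fun S => h S ^ 2) := by
  rw [Ex_erase he, Ex_erase he (f := fun S => h S ^ 2)]
  have h1 : Ex p (F.erase e) (fun S => (chi p e (insert e S) * h (insert e S))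
      * (chi p e (insert e S) * h (insert e S)))
      = (1 - p) ^ 2 * Ex p (F.erase e) (fun S => h S ^ 2) := by
    rw [← Ex_const_mul]
    refine Ex_congr fun S hS => ?_
    rw [chi_of_mem (by simp), hh S (hS.trans (Finset.erase_subset _ _))
      (fun h => Finset.notMem_erase e F (hS h))]
    ring
  have h2 : Ex p (F.erase e) (fun S => (chi p e S * h S) * (chi p e S * h S))
      = p ^ 2 * Ex p (F.erase e) (fun S => h S ^ 2) := by
    rw [← Ex_const_mul]
    refine Ex_congr fun S hS => ?_
    rw [chi_of_notMem (fun h => Finset.notMem_erase e F (hS h))]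
    ring
  have h3 : Ex p (F.erase e) (fun S => h (insert e S) ^ 2)
      = Ex p (F.erase e) (fun S => h S ^ 2) := by
    refine Ex_congr fun S hS => ?_
    rw [hh S (hS.trans (Finset.erase_subset _ _)) (fun h => Finset.notMem_erase e F (hS h))]
  rw [h1, h2, h3]
  ring

theorem ind_prod_nonpos {a1 b1 a2 b2 a3 b3 a4 b4 : Prop} (mA : a2 → a1) (mB : b1 → b2)
    (mA' : a4 → a3) (mB' : b3 → b4) (pA : a1 → a3 → a2 ∨ a4) (pB : b2 → b4 → b1 ∨ b3) :
    (ind (fun _ : Unit => a1 ∧ b1) () - ind (fun _ : Unit => a2 ∧ b2) ())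
      * (ind (fun _ : Unit => a3 ∧ b3) () - ind (fun _ : Unit => a4 ∧ b4) ()) ≤ 0 := by
  classical
  unfold ind
  by_cases a1 <;> by_cases a2 <;> by_cases a3 <;> by_cases a4 <;>
  by_cases b1 <;> by_cases b2 <;> by_cases b3 <;> by_cases b4 <;> simp_all

/-- **Key inequality.** Let `f` be a function of independent `p`-bits whose derivative in each
direction `e ∈ F'` vanishes off the event `A e ∧ B e`, where `A e` is increasing, `B e` is
decreasing, both do not depend on the bit `e`, and for distinct `e, e' ∈ F'` it never happens that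
`A e` depends on `e'` and simultaneously `A e'` depends on `e` (`PA`), and the same for `B` (`PB`).
Then the sum of the mean derivatives over `F'` obeys an `ℓ²` bound. -/
theorem key_inequality (h0 : 0 ≤ p) (h1 : p ≤ 1) (hF' : F' ⊆ F) (A B : ι → Finset ι → Prop)
    (hA : ∀ e ∈ F', ∀ S T, S ⊆ T → T ⊆ F → A e S → A e T)
    (hB : ∀ e ∈ F', ∀ S T, S ⊆ T → T ⊆ F → B e T → B e S)
    (hAe : ∀ e ∈ F', ∀ S, S ⊆ F → e ∉ S → A e (insert e S) → A e S)
    (hBe : ∀ e ∈ F', ∀ S, S ⊆ F → e ∉ S → B e S → B e (insert e S))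
    (PA : ∀ e ∈ F', ∀ e' ∈ F', e ≠ e' → ∀ S, S ⊆ F → e ∉ S → e' ∉ S →
      A e (insert e' S) → A e' (insert e S) → A e S ∨ A e' S)
    (PB : ∀ e ∈ F', ∀ e' ∈ F', e ≠ e' → ∀ S, S ⊆ F → e ∉ S → e' ∉ S →
      B e S → B e' S → B e (insert e' S) ∨ B e' (insert e S))
    (f : Finset ι → ℝ)
    (hf : ∀ e ∈ F', ∀ S, S ⊆ F → e ∉ S → ¬ (A e S ∧ B e S) → f (insert e S) = f S) :
    p * (1 - p) * (∑ e ∈ F', Ex p F (DD e f)) ^ 2
      ≤ Ex p F (fun S => f S ^ 2) * ∑ e ∈ F', Pr p F (fun S => A e S ∧ B e S) := by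
  set h : ι → Finset ι → ℝ := fun e => ind (fun S => A e S ∧ B e S) with hh_def
  have hq : 0 ≤ 1 - p := by linarith
  have hc : 0 ≤ p * (1 - p) := mul_nonneg h0 hq
  -- `h e` does not depend on the bit `e`
  have hh : ∀ e ∈ F', ∀ S, S ⊆ F → e ∉ S → h e (insert e S) = h e S := by
    intro e he S hS heS
    refine ind_congr ⟨fun x => ⟨hAe e he S hS heS x.1, ?_⟩, fun x => ⟨?_, hBe e he S hS heS x.2⟩⟩
    · exact hB e he _ _ (Finset.subset_insert e S) (Finset.insert_subset (hF' he) hS) x.2
    · exact hA e he _ _ (Finset.subset_insert e S) (Finset.insert_subset (hF' he) hS) x.1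
  -- step 1
  have s1 : ∀ e ∈ F', Ex p F (fun S => f S * chi p e S)
      = Ex p F (fun S => f S * (chi p e S * h e S)) := by
    intro e he
    have h2 : Ex p F (fun S => (f S * (1 - h e S)) * chi p e S) = 0 := by
      rw [Ex_mul_chi (hF' he), Ex_DD (hF' he)]
      have : Ex p (F.erase e) (fun S => f (insert e S) * (1 - h e (insert e S)))
          = Ex p (F.erase e) (fun S => f S * (1 - h e S)) := by
        refine Ex_congr fun S hS => ?_
        have hSF : S ⊆ F := hS.trans (Finset.erase_subset _ _)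
        have heS : e ∉ S := fun h => Finset.notMem_erase e F (hS h)
        rw [hh e he S hSF heS]
        by_cases hAB : A e S ∧ B e S
        · have : h e S = 1 := ind_of (A := fun S => A e S ∧ B e S) hAB
          rw [this]; ring
        · rw [hf e he S hSF heS hAB]
      rw [this]; ring
    have h3 : Ex p F (fun S => f S * chi p e S)
        = Ex p F (fun S => (f S * (1 - h e S)) * chi p e S)
          + Ex p F (fun S => f S * (chi p e S * h e S)) := by
      rw [← Ex_add]
      refine Ex_congr fun S _ => ?_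
      ring
    rw [h3, h2, zero_add]
  -- step 2
  have s2 : p * (1 - p) * (∑ e ∈ F', Ex p F (DD e f))
      = Ex p F (fun S => f S * ∑ e ∈ F', chi p e S * h e S) := by
    rw [Finset.mul_sum]
    have : Ex p F (fun S => f S * ∑ e ∈ F', chi p e S * h e S)
        = Ex p F (fun S => ∑ e ∈ F', f S * (chi p e S * h e S)) := by
      refine Ex_congr fun S _ => ?_
      rw [Finset.mul_sum]
    rw [this, Ex_sum]
    refine Finset.sum_congr rfl fun e he => ?_
    rw [← s1 e he, Ex_mul_chi (hF' he)]
  -- step 3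
  have s3 : Ex p F (fun S => (∑ e ∈ F', chi p e S * h e S) ^ 2)
      ≤ p * (1 - p) * ∑ e ∈ F', Pr p F (fun S => A e S ∧ B e S) := by
    have t1 : Ex p F (fun S => (∑ e ∈ F', chi p e S * h e S) ^ 2)
        = ∑ e ∈ F', ∑ e' ∈ F', Ex p F (fun S => (chi p e S * h e S) * (chi p e' S * h e' S)) := by
      have : Ex p F (fun S => (∑ e ∈ F', chi p e S * h e S) ^ 2)
          = Ex p F (fun S => ∑ e ∈ F', ∑ e' ∈ F', (chi p e S * h e S) * (chi p e' S * h e' S)) := by
        refine Ex_congr fun S _ => ?_
        rw [pow_two, Finset.sum_mul_sum]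
      rw [this, Ex_sum]
      refine Finset.sum_congr rfl fun e _ => ?_
      rw [Ex_sum]
    rw [t1, Finset.mul_sum]
    refine Finset.sum_le_sum fun e he => ?_
    have t2 : ∀ e' ∈ F', Ex p F (fun S => (chi p e S * h e S) * (chi p e' S * h e' S))
        ≤ if e' = e then p * (1 - p) * Pr p F (fun S => A e S ∧ B e S) else 0 := by
      intro e' he'
      by_cases hee : e' = e
      · subst hee
        rw [if_pos rfl, Ex_chi_diag (hF' he) p (h e') (hh e' he)]
        refine le_of_eq ?_
        congr 1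
        unfold Pr
        refine Ex_congr fun S _ => ?_
        exact ind_sq _ _
      · rw [if_neg hee, Ex_chi_cross (hF' he) (hF' he') (fun x => hee x.symm) p (h e) (h e')
          (hh e he) (hh e' he')]
        refine mul_nonpos_of_nonneg_of_nonpos (by positivity) ?_
        have : Ex p ((F.erase e').erase e)
            (fun S => (h e (insert e' S) - h e S) * (h e' (insert e S) - h e' S))
            ≤ Ex p ((F.erase e').erase e) (fun _ => (0 : ℝ)) := by
          refine Ex_mono h0 h1 fun S hS => ?_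
          have heS : e ∉ S := fun h => Finset.notMem_erase e _ (hS h)
          have he'S : e' ∉ S := fun h => Finset.notMem_erase e' F (Finset.erase_subset _ _ (hS h))
          have hSF : S ⊆ F := hS.trans ((Finset.erase_subset _ _).trans (Finset.erase_subset _ _))
          have hSe : insert e S ⊆ F := Finset.insert_subset (hF' he) hSF
          have hSe' : insert e' S ⊆ F := Finset.insert_subset (hF' he') hSF
          have mA := hA e he S (insert e' S) (Finset.subset_insert _ _) hSe'
          have mA' := hA e' he' S (insert e S) (Finset.subset_insert _ _) hSe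
          have mB := hB e he S (insert e' S) (Finset.subset_insert _ _) hSe'
          have mB' := hB e' he' S (insert e S) (Finset.subset_insert _ _) hSe
          have pA := PA e he e' he' (fun x => hee x.symm) S hSF heS he'S
          have pB := PB e he e' he' (fun x => hee x.symm) S hSF heS he'S
          exact ind_prod_nonpos mA mB mA' mB' pA pB
        simpa using this
    refine (Finset.sum_le_sum t2).trans ?_
    rw [Finset.sum_ite_eq' F' e, if_pos he]
  have s4 := Ex_mul_sq_le h0 h1 F f (fun S => ∑ e ∈ F', chi p e S * h e S)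
  rw [← s2] at s4
  have hf2 : 0 ≤ Ex p F (fun S => f S ^ 2) := Ex_nonneg h0 h1 fun S _ => sq_nonneg _
  have s5 := s4.trans (mul_le_mul_of_nonneg_left s3 hf2)
  rcases hc.eq_or_lt with hz | hpos
  · rw [← hz, zero_mul]
    refine mul_nonneg hf2 (Finset.sum_nonneg fun e _ => Ex_nonneg h0 h1 fun S _ => ind_nonneg _ _)
  · have s6 : (p * (1 - p)) * (p * (1 - p) * (∑ e ∈ F', Ex p F (DD e f)) ^ 2)
        ≤ (p * (1 - p)) * (Ex p F (fun S => f S ^ 2)
          * ∑ e ∈ F', Pr p F (fun S => A e S ∧ B e S)) := by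
      calc _ = (p * (1 - p) * ∑ e ∈ F', Ex p F (DD e f)) ^ 2 := by ring
        _ ≤ _ := s5
        _ = _ := by ring
    exact le_of_mul_le_mul_left s6 hpos

/-- The key inequality in square-root form. -/
theorem key_inequality_sqrt (h0 : 0 < p) (h1 : p < 1) (hF' : F' ⊆ F) (A B : ι → Finset ι → Prop)
    (hA : ∀ e ∈ F', ∀ S T, S ⊆ T → T ⊆ F → A e S → A e T)
    (hB : ∀ e ∈ F', ∀ S T, S ⊆ T → T ⊆ F → B e T → B e S)
    (hAe : ∀ e ∈ F', ∀ S, S ⊆ F → e ∉ S → A e (insert e S) → A e S)
    (hBe : ∀ e ∈ F', ∀ S, S ⊆ F → e ∉ S → B e S → B e (insert e S))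
    (PA : ∀ e ∈ F', ∀ e' ∈ F', e ≠ e' → ∀ S, S ⊆ F → e ∉ S → e' ∉ S →
      A e (insert e' S) → A e' (insert e S) → A e S ∨ A e' S)
    (PB : ∀ e ∈ F', ∀ e' ∈ F', e ≠ e' → ∀ S, S ⊆ F → e ∉ S → e' ∉ S →
      B e S → B e' S → B e (insert e' S) ∨ B e' (insert e S))
    (f : Finset ι → ℝ)
    (hf : ∀ e ∈ F', ∀ S, S ⊆ F → e ∉ S → ¬ (A e S ∧ B e S) → f (insert e S) = f S) :
    |∑ e ∈ F', Ex p F (DD e f)|
      ≤ Real.sqrt (Ex p F (fun S => f S ^ 2)
        * (∑ e ∈ F', Pr p F (fun S => A e S ∧ B e S)) / (p * (1 - p))) := by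
  have key := key_inequality h0.le h1.le hF' A B hA hB hAe hBe PA PB f hf
  have hc : 0 < p * (1 - p) := mul_pos h0 (by linarith)
  refine Real.abs_le_sqrt ?_
  rw [le_div_iff₀ hc]
  linarith

end Pool.Agent.Perc
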