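import Pool.Agent.Perc.BK
import Pool.Agent.Perc.KI
import Pool.Agent.H89.Perc.Path

/-!
# Local events of bond percolation as events of a finite product space
-/

open MeasureTheory ProbabilityTheory unitInterval

namespace Pool.Agent.H89.Perc

open Pool.Agent.Perc (Ex ind ind_of ind_of_not)

instance (p : I) : IsProbabilityMeasure (μ p) := by unfold μ; infer_instance

/-- The configuration whose set of open edges is `S`. -/
def ofS (S : Finset Edge) : Config := fun e => decide (e ∈ S)

theorem ofS_apply (S : Finset Edge) (e : Edge) : ofS S e = decide (e ∈ S) := rfl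

theorem ofS_eq_true {S : Finset Edge} {e : Edge} : ofS S e = true ↔ e ∈ S := by simp [ofS]

theorem ofS_mono {S T : Finset Edge} (h : S ⊆ T) (e : Edge) (he : ofS S e = true) :
    ofS T e = true := ofS_eq_true.2 (h (ofS_eq_true.1 he))

/-- The cylinder of configurations that have exactly the open edges `S` in `s`. -/
def cyl (s S : Finset Edge) : Set Config := Set.pi (s : Set Edge) (fun e => {ofS S e})

theorem mem_cyl {s S : Finset Edge} {ω : Config} : ω ∈ cyl s S ↔ ∀ e ∈ s, ω e = ofS S e := by
  simp [cyl, Set.mem_pi]

theorem measurableSet_cyl (s S : Finset Edge) : MeasurableSet (cyl s S) :=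
  MeasurableSet.pi s.countable_toSet fun _ _ => MeasurableSet.of_discrete

theorem Pr_cyl (p : I) {s S : Finset Edge} (hS : S ⊆ s) :
    Pr p (cyl s S) = (p : ℝ) ^ S.card * (1 - (p : ℝ)) ^ (s \ S).card := by
  unfold Pr cyl μ
  rw [measureReal_def, Measure.infinitePi_pi _ (fun _ _ => MeasurableSet.of_discrete),
    ENNReal.toReal_prod]
  have h : ∀ e ∈ s, ((bernoulliMeasure true false p) {ofS S e}).toReal
      = if e ∈ S then (p : ℝ) else 1 - (p : ℝ) := by
    intro e _
    by_cases he : e ∈ S
    · have : ofS S e = true := ofS_eq_true.2 he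
      rw [this, if_pos he, ← measureReal_def, bernoulliMeasure_real_apply_of_mem_of_notMem p
        MeasurableSet.of_discrete (by simp) (by simp)]
    · have : ofS S e = false := by simp [ofS, he]
      rw [this, if_neg he, ← measureReal_def, bernoulliMeasure_real_apply_of_notMem_of_mem p
        MeasurableSet.of_discrete (by simp) (by simp)]
  rw [Finset.prod_congr rfl h, Finset.prod_ite, Finset.prod_const, Finset.prod_const]
  congr 3
  · rw [Finset.filter_mem_eq_inter, Finset.inter_eq_right.2 hS]
  · ext x; simp

open Classical in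
/-- A local event as a finite union of cylinders. -/
theorem LocalOn.eq_biUnion {s : Finset Edge} {A : Set Config} (hA : LocalOn s A) :
    A = ⋃ S ∈ (s.powerset.filter (fun S => ofS S ∈ A) : Finset (Finset Edge)), cyl s S := by
  classical
  ext ω
  simp only [Finset.mem_filter, Finset.mem_powerset, Set.mem_iUnion, exists_prop]
  constructor
  · intro h
    refine ⟨s.filter (fun e => ω e = true), ⟨Finset.filter_subset _ _, ?_⟩, ?_⟩
    · refine hA ω _ (fun e he => ?_) h
      rw [ofS_apply]; simp [he]
    · rw [mem_cyl]
      intro e he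
      rw [ofS_apply]; simp [he]
  · rintro ⟨S, ⟨_, h1⟩, h2⟩
    rw [mem_cyl] at h2
    exact hA _ _ (fun e he => (h2 e he).symm) h1

/-- Local events are measurable. -/
theorem LocalOn.measurableSet {s : Finset Edge} {A : Set Config} (h : LocalOn s A) :
    MeasurableSet A := by
  classical
  rw [h.eq_biUnion]
  exact Finset.measurableSet_biUnion _ fun S _ => measurableSet_cyl s S

/-- **Bridge**: the probability of a local event is a finite expectation. -/
theorem Pr_eq_Ex {s : Finset Edge} {A : Set Config} (hA : LocalOn s A) (p : I) :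
    Pr p A = Ex (p : ℝ) s (ind (fun S => ofS S ∈ A)) := by
  classical
  have h1 : Pr p A = ∑ S ∈ s.powerset.filter (fun S => ofS S ∈ A), Pr p (cyl s S) := by
    conv_lhs => rw [hA.eq_biUnion]
    unfold Pr
    refine measureReal_biUnion_finset ?_ (fun S _ => measurableSet_cyl s S)
      (fun _ _ => measure_ne_top _ _)
    intro S hS T hT hne
    rw [Function.onFun, Set.disjoint_left]
    intro ω h1 h2
    rw [mem_cyl] at h1 h2
    apply hne
    simp only [Finset.coe_filter, Finset.mem_powerset, Set.mem_ofPred_eq] at hS hT
    ext e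
    by_cases he : e ∈ s
    · have := (h1 e he).symm.trans (h2 e he)
      rw [ofS_apply, ofS_apply, decide_eq_decide] at this
      exact this
    · exact ⟨fun h => absurd (hS.1 h) he, fun h => absurd (hT.1 h) he⟩
  rw [h1, Finset.sum_filter]
  unfold Ex
  refine Finset.sum_congr rfl fun S hS => ?_
  by_cases h : ofS S ∈ A
  · rw [if_pos h, ind_of (A := fun S => ofS S ∈ A) h, mul_one,
      Pr_cyl p (Finset.mem_powerset.1 hS)]
  · rw [if_neg h, ind_of_not (A := fun S => ofS S ∈ A) h, mul_zero]

end Pool.Agent.H89.Perc
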